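import Pool.Agent.Helper68.Ucg.Goals

/-!
# Packet FSC: finite stabilisers of a corner with commutative diagonal
-/

set_option autoImplicit false

open scoped ComplexOrder

namespace Pool.Agent.Helper62.Ucg

open Pool.Agent.Helper39.Uct Pool.Agent.Helper68.Ucg Fib
open Pool.Agent

section main

open Pool.Agent.Helper77.Uct3

variable {Q : Type} [Group Q] {A : Type} [NonUnitalCStarAlgebra A] {H : Type}
  [NonUnitalCStarAlgebra H]

/-- The main construction. -/
theorem extend' {Q' : Type} [Group Q'] (hU : S_UNI) (G : Fib Q A) (ι : H →⋆ₙₐ[ℂ] A)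
    (hι : Hered ι) (G' : Fib Q' H) (h1 : ∀ h ∈ G'.fib 1, ι h ∈ G.fib 1)
    (h2 : ∀ z ∈ G'.fib 1, ∀ y ∈ G.fib 1, ∀ h, ι h = ι z * y * ι z → h ∈ G'.fib 1)
    (φ : G'.Pt) : ∃ ψ : A →ₗ[ℂ] ℂ, PureAt G ψ ∧ (∀ h, ψ (ι h) = φ h) ∧
      ∀ b : H, φ (star b * b) = 1 → (∀ c ∈ G'.fib 1, φ (star b * c * b) = φ c) →
        ∀ c ∈ G.fib 1, ψ (star (ι b) * c * ι b) = ψ c := by
  obtain ⟨z, hzm, hzsa, hzn, hz1⟩ := exists_z φ
  have hiso := NonUnitalStarAlgHom.isometry ι hι.1
  have hnorm : ∀ h, ‖ι h‖ = ‖h‖ := fun h => by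
    have := hiso.norm_map_of_map_zero (map_zero ι) h
    exact this
  have hZ : ι z ∈ G.fib 1 := h1 z hzm
  have hZsa : star (ι z) = ι z := by rw [← map_star, hzsa.star_eq]
  have hZn : ‖ι z‖ ≤ 1 := by rw [hnorm]; exact hzn
  choose k hk using fun y : A => hι.2 z z y
  -- `hk : ∀ y, ι (k y) = ι z * y * ι z`
  have kadd : ∀ x y, k (x + y) = k x + k y := by
    intro x y
    apply hι.1
    rw [map_add, hk, hk, hk]
    noncomm_ring
  have ksmul : ∀ (c : ℂ) x, k (c • x) = c • k x := by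
    intro c x
    apply hι.1
    rw [map_smul, hk, hk, mul_smul_comm, smul_mul_assoc]
  let ψ : A →ₗ[ℂ] ℂ :=
    { toFun := fun y => φ (k y)
      map_add' := fun x y => by rw [kadd]; exact map_add φ.toFun _ _
      map_smul' := fun c x => by rw [ksmul]; exact map_smul φ.toFun _ _ }
  have hψ : ∀ y, ψ y = φ (k y) := fun y => rfl
  have hpos : ∀ b, 0 ≤ ψ (star b * b) := by
    intro b
    obtain ⟨s, hs⟩ := pos_of_eq ι hι.1 (h := k (star b * b)) (u := b * ι z) (by
      rw [hk, star_mul, hZsa]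
      noncomm_ring)
    rw [hψ, hs]
    exact φ.pos s
  have hbound : ∀ b, ‖ψ b‖ ≤ ‖b‖ := by
    intro b
    rw [hψ]
    refine (φ.bound _).trans ?_
    rw [← hnorm, hk]
    calc ‖ι z * b * ι z‖ ≤ ‖ι z * b‖ * ‖ι z‖ := norm_mul_le _ _
      _ ≤ (‖ι z‖ * ‖b‖) * ‖ι z‖ := by gcongr; exact norm_mul_le _ _
      _ ≤ (1 * ‖b‖) * 1 := by gcongr
      _ = ‖b‖ := by ring
  have hψι : ∀ h, ψ (ι h) = φ h := by
    intro h
    have e : k (ι h) = z * h * z := by
      apply hι.1
      rw [hk, map_mul, map_mul]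
    rw [hψ, e, pt_mulR φ hzm, pt_mulL φ hzm, hz1, one_mul, mul_one]
  have hψZ : ψ (ι z) = 1 := by rw [hψι, hz1]
  have huni := hU A ψ hbound hpos (ι z) hZsa hZn hψZ
  have hkm : ∀ y ∈ G.fib 1, k y ∈ G'.fib 1 := fun y hy => h2 z hzm y hy _ (hk y)
  refine ⟨ψ, ⟨hbound, hpos, ?_, ?_⟩, ?_, ?_⟩
  · intro ε hε
    refine ⟨ι z, hZ, hZn, ?_⟩
    rw [hψZ, norm_one]
    linarith
  · intro ω hω
    -- null vectors
    have hnull : ∀ n ∈ G.fib 1, ψ (star n * n) = 0 → ∀ x ∈ G.fib 1,
        ω (star x * n) = 0 ∧ ω (star n * x) = 0 := by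
      intro n hn hn0 x hx
      have hωn : ω (star n * n) = 0 := by
        have := hω n hn
        rw [hn0] at this
        exact le_antisymm this.2 this.1
      refine form_zero (r := ω (star x * x)) fun t => ?_
      have h3 := (hω (x + t • n) (add_mem hx ((G.fib 1).smul_mem t hn))).1
      have e : star (x + t • n) * (x + t • n) = star x * x + t • (star x * n) +
          star t • (star n * x) + (star t * t) • (star n * n) := by
        rw [star_add, star_smul, mul_comm (star t) t, ← smul_smul]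
        simp only [add_mul, mul_add, smul_add, smul_mul_assoc, mul_smul_comm]
        abel
      rw [e] at h3
      simpa only [map_add, map_smul, smul_eq_mul, hωn, mul_zero, add_zero] using h3
    have hZnull : ∀ y ∈ G.fib 1, ψ (star (y - y * ι z) * (y - y * ι z)) = 0 := by
      intro y hy
      have e : star (y - y * ι z) * (y - y * ι z) = star y * y - (star y * y) * ι z -
          (ι z * (star y * y) - ι z * ((star y * y) * ι z)) := by
        rw [star_sub, star_mul, hZsa]
        noncomm_ring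
      rw [e, map_sub, map_sub, map_sub, (huni _).2, (huni _).2, (huni _).1]
      ring
    have hself : ∀ y ∈ G.fib 1, IsSelfAdjoint y → ω (y * ι z) = ω y ∧ ω (ι z * y) = ω y := by
      have hsq : ∀ m ∈ G.fib 1, IsSelfAdjoint m → ω (m * m * ι z) = ω (m * m) ∧
          ω (ι z * (m * m)) = ω (m * m) := by
        intro m hm hmsa
        have h3 := hnull (m - m * ι z) (sub_mem hm (unit_mul G hm hZ)) (hZnull m hm) m hm
        rw [star_sub, star_mul, hZsa, hmsa.star_eq, mul_sub, sub_mul, map_sub, map_sub,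
          sub_eq_zero, sub_eq_zero] at h3
        constructor
        · rw [mul_assoc]
          exact h3.1.symm
        · rw [← mul_assoc]
          exact h3.2.symm
      intro y hy hysa
      obtain ⟨m, hm, n, hn, hmsa, hnsa, -, hmn⟩ := Helper17.Uct.exists_split G hy hysa
      rw [hmn, sub_mul, mul_sub, map_sub, map_sub, map_sub, (hsq m hm hmsa).1,
        (hsq m hm hmsa).2, (hsq n hn hnsa).1, (hsq n hn hnsa).2]
      exact ⟨rfl, rfl⟩
    have hall : ∀ y ∈ G.fib 1, ω (y * ι z) = ω y ∧ ω (ι z * y) = ω y := by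
      intro y hy
      have hr : (realPart y : A) ∈ G.fib 1 := by
        rw [realPart_apply_coe]
        exact (G.fib 1).smul_of_tower_mem _ (add_mem hy (unit_star G hy))
      have hi : (imaginaryPart y : A) ∈ G.fib 1 := by
        rw [imaginaryPart_apply_coe]
        exact (G.fib 1).smul_mem _ ((G.fib 1).smul_of_tower_mem _
          (sub_mem hy (unit_star G hy)))
      have h3 := hself _ hr (realPart y).2
      have h4 := hself _ hi (imaginaryPart y).2
      rw [← realPart_add_I_smul_imaginaryPart y]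
      constructor
      · rw [add_mul, smul_mul_assoc, map_add, map_add, map_smul, map_smul, h3.1, h4.1]
      · rw [mul_add, mul_smul_comm, map_add, map_add, map_smul, map_smul, h3.2, h4.2]
    have hι0 : ∀ h ∈ G'.fib 1, φ h = 0 → ω (ι h) = 0 := by
      intro h hh h0
      have h3 : ψ (star (ι h) * ι h) = 0 := by
        rw [← map_star, ← map_mul, hψι, pt_mulR φ hh, h0, mul_zero]
      have h4 := (hnull (ι h) (h1 h hh) h3 (ι z) hZ).1
      rw [hZsa, (hall _ (h1 h hh)).2] at h4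
      exact h4
    refine ⟨ω (ι z), fun c hc => ?_⟩
    have h3 : ω c = ω (ι (k c)) := by
      rw [hk, mul_assoc, (hall _ (unit_mul G hc hZ)).2, (hall _ hc).1]
    have h4 := hι0 (k c - φ (k c) • z) (sub_mem (hkm c hc) ((G'.fib 1).smul_mem _ hzm)) (by
      have : φ.toFun (k c - φ.toFun (k c) • z) = 0 := by
        rw [map_sub, map_smul, smul_eq_mul, hz1, mul_one, sub_self]
      exact this)
    rw [map_sub, map_smul, map_sub, map_smul, sub_eq_zero] at h4
    rw [h3, h4, hψ, smul_eq_mul, mul_comm]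
  · exact hψι
  · intro b hbb hst c hc
    have hxx : ψ (star (ι b) * ι b) = 1 := by
      rw [← map_star, ← map_mul, hψι, hbb]
    let ψx : A →ₗ[ℂ] ℂ :=
      { toFun := fun y => ψ (star (ι b) * y * ι b)
        map_add' := fun x y => by rw [mul_add, add_mul, map_add]
        map_smul' := fun c x => by
          rw [mul_smul_comm, smul_mul_assoc, map_smul, RingHom.id_apply] }
    have hψx : ∀ y, ψx y = ψ (star (ι b) * y * ι b) := fun y => rfl
    have hψxZ : ψx (ι z) = 1 := by
      rw [hψx, ← map_star, ← map_mul, ← map_mul, hψι, hst z hzm, hz1]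
    have hux := hU A ψx (fun y => pos_bound_conj ψ hpos hxx y) (fun y => by
      have e : star (ι b) * (star y * y) * ι b = star (y * ι b) * (y * ι b) := by
        rw [star_mul]; noncomm_ring
      rw [hψx, e]
      exact hpos _) (ι z) hZsa hZn hψxZ
    rw [← hψx, ← (hux c).2, ← (hux (ι z * c)).1, ← hk, hψx, ← map_star, ← map_mul, ← map_mul,
      hψι, hst (k c) (hkm c hc), hψ]


end main

/-- Packet FSC. -/
theorem fsc : S_FSC := by
  intro A H _ _ G G' ι hι hD hN hE hC hF φ
  obtain ⟨ψ, hψ, hψι, hst⟩ := extend' Helper90.Uct3.uni (fgr G) ι hι (fgr G')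
    (by
      intro h hh
      rw [fgr_one] at hh ⊢
      exact (hD h).1 hh)
    (by
      intro z hz y hy h hh
      rw [fgr_one] at hz hy ⊢
      rw [hD, hh]
      exact G.D_mul _ (G.D_mul _ ((hD z).1 hz) _ hy) _ ((hD z).1 hz)) φ
  have hP : Diag.PureOn G ψ := by
    obtain ⟨h1, h2, h3, h4⟩ := hψ
    rw [fgr_one] at h3 h4
    exact ⟨h1, h2, h3, h4⟩
  obtain ⟨k, hk⟩ := hF ψ hP
  refine ⟨k, fun n hn => ?_⟩
  have key : ∀ i, ∃ s : ℂ, s ≠ 0 ∧ φ (star (s • n i) * (s • n i)) = 1 ∧
      ∀ c ∈ G'.D, φ (star (s • n i) * c * (s • n i)) = φ c := by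
    intro i
    obtain ⟨hmem, hne, hfix⟩ := hn i
    have hre : 0 < (φ (star (n i) * n i)).re := by
      rcases (pt_re φ (n i)).lt_or_eq with h | h
      · exact h
      · exact absurd (Complex.ext h.symm (pt_im φ (n i))) hne
    have hval : φ (star (n i) * n i) = ((φ (star (n i) * n i)).re : ℂ) := by
      apply Complex.ext
      · simp
      · simpa using pt_im φ (n i)
    set r := (φ (star (n i) * n i)).re with hr
    have hs : √r ≠ 0 := (Real.sqrt_pos.2 hre).ne'
    have hsm : ∀ c : H, φ (star ((((√r)⁻¹ : ℝ) : ℂ) • n i) * c * ((((√r)⁻¹ : ℝ) : ℂ) • n i)) =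
        (((√r)⁻¹ * (√r)⁻¹ : ℝ) : ℂ) * φ (star (n i) * c * n i) := by
      intro c
      have e : star ((((√r)⁻¹ : ℝ) : ℂ) • n i) * c * ((((√r)⁻¹ : ℝ) : ℂ) • n i) =
          (((√r)⁻¹ * (√r)⁻¹ : ℝ) : ℂ) • (star (n i) * c * n i) := by
        rw [star_smul, smul_mul_assoc, smul_mul_assoc, mul_smul_comm, smul_smul]
        simp
      have e2 : φ.toFun (star ((((√r)⁻¹ : ℝ) : ℂ) • n i) * c * ((((√r)⁻¹ : ℝ) : ℂ) • n i)) =
        (((√r)⁻¹ * (√r)⁻¹ : ℝ) : ℂ) * φ.toFun (star (n i) * c * n i) := by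
        rw [e, map_smul, smul_eq_mul]
      exact e2
    have hrr : (((√r)⁻¹ * (√r)⁻¹ : ℝ) : ℂ) * φ (star (n i) * n i) = 1 := by
      rw [hval]
      have e4 : (√r)⁻¹ * (√r)⁻¹ * r = 1 := by
        have := Real.mul_self_sqrt hre.le
        field_simp
        nlinarith
      exact_mod_cast e4
    refine ⟨(((√r)⁻¹ : ℝ) : ℂ), ?_, ?_, ?_⟩
    · exact_mod_cast inv_ne_zero hs
    · have e : star ((((√r)⁻¹ : ℝ) : ℂ) • n i) * ((((√r)⁻¹ : ℝ) : ℂ) • n i) =
          (((√r)⁻¹ * (√r)⁻¹ : ℝ) : ℂ) • (star (n i) * n i) := by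
        rw [star_smul, smul_mul_assoc, mul_smul_comm, smul_smul]
        simp
      have e2 : φ.toFun (star ((((√r)⁻¹ : ℝ) : ℂ) • n i) * ((((√r)⁻¹ : ℝ) : ℂ) • n i)) = 1 := by
        rw [e, map_smul, smul_eq_mul]
        exact hrr
      exact e2
    · intro c hc
      rw [hsm c, hfix c hc, mul_left_comm, hrr, mul_one]
  choose s hs0 hs1 hs2 using key
  obtain ⟨i, j, hij, hne⟩ := hk (fun i => ι (s i • n i)) (fun i => by
    refine ⟨(hN _).1 (G'.N_smul _ _ (hn i).1), ?_, fun c hc => ?_⟩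
    · rw [← map_star, ← map_mul, hψι]
      exact hs1 i
    · refine hst (s i • n i) (hs1 i) (fun c hc => ?_) c (by rw [fgr_one]; exact hc)
      rw [fgr_one] at hc
      exact hs2 i c hc)
  refine ⟨i, j, hij, fun h0 => hne ?_⟩
  have e : star (ι (s i • n i)) * ι (s j • n j) =
      ι ((star (s i) * s j) • (star (n i) * n j)) := by
    rw [← map_star, ← map_mul, star_smul, smul_mul_assoc, mul_smul_comm, smul_smul]
  rw [e, ← hE, hψι, map_smul]
  have : φ.toFun ((star (s i) * s j) • G'.E (star (n i) * n j)) = 0 := by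
    rw [map_smul]
    have h1 : φ.toFun (G'.E (star (n i) * n j)) = 0 := h0
    rw [h1, smul_zero]
  exact this

end Pool.Agent.Helper62.Ucg
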