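import Pool.Agent.Helper68.Ucg.NF

/-!
# Packet KFF: facts about `RR` and `kap`
-/

set_option autoImplicit false

open scoped ComplexOrder

namespace Pool.Agent.Helper62.Ucg

open Pool.Agent.Helper39.Uct Pool.Agent.Helper68.Ucg

section

variable {A : Type} [NonUnitalCStarAlgebra A] {G : Diag A} {d : A}

theorem E_cont (G : Diag A) : Continuous G.E := by
  refine AddMonoidHomClass.continuous_of_bound G.E 1 fun a => ?_
  rw [one_mul]
  exact G.E_bound a

/-- Induction on the closure. -/
theorem Dd_ind (P : A → Prop) (hP : IsClosed {x | P x}) (h : ∀ y ∈ G.D, P (d * y)) {x : A}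
    (hx : x ∈ Dd G d) : P x := by
  have h1 : x ∈ closure ((Submodule.map (LinearMap.mulLeft ℂ d) G.D : Submodule ℂ A) : Set A) :=
    hx
  refine closure_minimal ?_ hP h1
  rintro _ ⟨y, hy, rfl⟩
  exact h y hy

theorem Dd_base {y : A} (hy : y ∈ G.D) : d * y ∈ Dd G d :=
  Submodule.le_topologicalClosure _ ⟨y, hy, rfl⟩

theorem Dd_D (hd : d ∈ G.D) {x : A} (hx : x ∈ Dd G d) : x ∈ G.D :=
  Dd_ind (fun x => x ∈ G.D) G.closed (fun y hy => G.D_mul _ hd _ hy) hx

theorem Dd_mulR {x y : A} (hx : x ∈ Dd G d) (hy : y ∈ G.D) : x * y ∈ Dd G d := by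
  refine Dd_ind (fun x => x * y ∈ Dd G d) ?_ (fun z hz => ?_) hx
  · exact (Submodule.isClosed_topologicalClosure _).preimage (continuous_mul_const y)
  · rw [mul_assoc]
    exact Dd_base (G.D_mul _ hz _ hy)

theorem Dd_mulL (hG : G.Comm) (hd : d ∈ G.D) {x y : A} (hx : x ∈ Dd G d) (hy : y ∈ G.D) :
    y * x ∈ Dd G d := by
  rw [hG y hy x (Dd_D hd hx)]
  exact Dd_mulR hx hy

theorem Dd_star (hG : G.Comm) (hd : d ∈ G.D) (hsa : IsSelfAdjoint d) {x : A}
    (hx : x ∈ Dd G d) : star x ∈ Dd G d := by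
  refine Dd_ind (fun x => star x ∈ Dd G d) ?_ (fun z hz => ?_) hx
  · exact (Submodule.isClosed_topologicalClosure _).preimage continuous_star
  · show star (d * z) ∈ Dd G d
    rw [star_mul, hsa.star_eq, hG _ (G.D_star z hz) d hd]
    exact Dd_base (G.D_star z hz)

theorem Dd_pt (φ : G.Pt) (hd : d ∈ G.D) {x : A} (hx : x ∈ Dd G d) (h : φ x ≠ 0) : φ d ≠ 0 := by
  intro h0
  refine h ?_
  have hc : Continuous φ.toFun := by
    refine AddMonoidHomClass.continuous_of_bound φ.toFun 1 fun a => ?_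
    rw [one_mul]
    exact φ.bound a
  refine Dd_ind (fun x => φ x = 0) ?_ (fun z _ => ?_) hx
  · exact isClosed_eq hc continuous_const
  · show φ (d * z) = 0
    rw [d_mulL φ hd, h0, zero_mul]

variable {m : ℕ} {n : Fin m → A} {u : A}

theorem kap_mem' (hG : G.Comm) (hK : KD G n d u) (a : A) {c : A} (hc : c ∈ Dd G d) :
    kap G n a * c ∈ RR G n d := by
  refine ⟨fun i => G.E (star (n i) * a) * c, fun i => Dd_mulL hG hK.d_mem hc (G.E_mem _), ?_⟩
  rw [kap_apply, Finset.sum_mul]
  exact Finset.sum_congr rfl fun i _ => by rw [mul_assoc]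

theorem n_mem (hG : G.Comm) (hK : KD G n d u) (i : Fin m) : n i ∈ G.N := by
  obtain ⟨φ, hφ⟩ := Pool.Agent.Helper17.Uct.exists_phi t_PE (fgr_comm hG)
    (by rw [fgr_one]; exact hK.d_mem) hK.d_ne
  exact (hK.iso i φ hφ).1

theorem coord' (hG : G.Comm) (hK : KD G n d u) (x : Fin m → A) (hx : ∀ i, x i ∈ Dd G d)
    (j : Fin m) : G.E (star (n j) * ∑ i, n i * x i) = x j := by
  have h1 : ∀ i, i ≠ j → G.E (star (n j) * (n i * x i)) = 0 := by
    intro i hij
    rw [← mul_assoc, e_mulR G (Dd_D hK.d_mem (hx i))]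
    refine Dd_ind (fun y => G.E (star (n j) * n i) * y = 0) ?_ (fun z _ => ?_) (hx i)
    · exact isClosed_eq (continuous_const_mul _) continuous_const
    · show G.E (star (n j) * n i) * (d * z) = 0
      rw [← mul_assoc, hK.neq j i hij.symm, zero_mul]
  have h2 : G.E (star (n j) * (n j * x j)) = x j := by
    have h3 : star (n j) * n j ∈ G.D := G.N_norm _ (n_mem hG hK j)
    rw [← mul_assoc, G.E_id _ (G.D_mul _ h3 _ (Dd_D hK.d_mem (hx j)))]
    refine Dd_ind (fun y => star (n j) * n j * y = y) ?_ (fun z _ => ?_) (hx j)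
    · exact isClosed_eq (continuous_const_mul _) continuous_id
    · show star (n j) * n j * (d * z) = d * z
      rw [← mul_assoc, hK.unit j]
  rw [Finset.mul_sum, map_sum, Finset.sum_eq_single j (fun i _ hij => h1 i hij)
    (fun h => absurd (Finset.mem_univ j) h), h2]

theorem kap_id' (hG : G.Comm) (hK : KD G n d u) {a : A} (ha : a ∈ RR G n d) :
    kap G n a = a := by
  obtain ⟨x, hx, rfl⟩ := ha
  rw [kap_apply]
  exact Finset.sum_congr rfl fun j _ => by rw [coord' hG hK x hx j]

theorem kap_cont (G : Diag A) {m : ℕ} (n : Fin m → A) : Continuous (kap G n) := by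
  have : (kap G n : A → A) = fun a => ∑ i, n i * G.E (star (n i) * a) :=
    funext fun a => kap_apply G n a
  rw [this]
  refine continuous_finset_sum _ fun i _ => ?_
  exact continuous_const.mul ((E_cont G).comp (continuous_const.mul continuous_id))

end

/-- Packet KFF. -/
theorem kff (hCMM : S_CMM) (hXPN : S_XPN) : S_KF := by
  intro A _ G hG m n d u hK
  have hdD := hK.d_mem
  have hcm : ∀ i, ∀ x ∈ Dd G d, x * n i = n i * x := fun i x hx =>
    (hCMM A G hG m n d u hK i x hx).2
  have hX := hXPN A G hG m n d u hK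
  have hkm : ∀ a, ∀ c ∈ Dd G d, kap G n a * c ∈ RR G n d := fun a c hc => kap_mem' hG hK a hc
  have hN := n_mem hG hK
  have hsd : ∀ x ∈ Dd G d, star x ∈ Dd G d := fun x hx => Dd_star hG hdD hK.d_sa hx
  have hcs : ∀ i, ∀ x ∈ Dd G d, x * star (n i) = star (n i) * x := by
    intro i x hx
    have h := congrArg star (hcm i (star x) (hsd x hx))
    simpa using h.symm
  have hcent : ∀ x ∈ G.D, ∀ a ∈ RR G n d, x * a ∈ RR G n d ∧ x * a = a * x := by
    rintro x hx a ⟨y, hy, rfl⟩
    have h1 : ∀ i, x * (n i * y i) = n i * (x * y i) := by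
      intro i
      have h2 := Dd_mulL hG hdD (hy i) hx
      rw [← hcm i _ (hy i), ← mul_assoc, hcm i _ h2]
    refine ⟨⟨fun i => x * y i, fun i => Dd_mulL hG hdD (hy i) hx, ?_⟩, ?_⟩
    · rw [Finset.mul_sum]
      exact Finset.sum_congr rfl fun i _ => h1 i
    · rw [Finset.mul_sum, Finset.sum_mul]
      refine Finset.sum_congr rfl fun i _ => ?_
      rw [h1 i, hG x hx _ (Dd_D hdD (hy i)), mul_assoc]
  have hright : ∀ a, ∀ x ∈ G.D, kap G n (a * x) = kap G n a * x := by
    intro a x hx
    rw [kap_apply, kap_apply, Finset.sum_mul]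
    refine Finset.sum_congr rfl fun i _ => ?_
    rw [← mul_assoc, e_mulR G hx, mul_assoc]
  have hleft : ∀ a, ∀ c ∈ Dd G d, kap G n (c * a) = c * kap G n a ∧
      c * kap G n a ∈ RR G n d := by
    intro a c hc
    have h1 : ∀ i, c * (n i * G.E (star (n i) * a)) = n i * (c * G.E (star (n i) * a)) := by
      intro i
      rw [← mul_assoc, hcm i c hc, mul_assoc]
    constructor
    · rw [kap_apply, kap_apply, Finset.mul_sum]
      refine Finset.sum_congr rfl fun i _ => ?_
      rw [h1 i, ← mul_assoc, ← hcs i c hc, mul_assoc, G.E_mul _ (Dd_D hdD hc)]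
    · refine ⟨fun i => c * G.E (star (n i) * a), fun i => Dd_mulR hc (G.E_mem _), ?_⟩
      rw [kap_apply, Finset.mul_sum]
      exact Finset.sum_congr rfl fun i _ => h1 i
  refine
    { comm := hcm
      closed := ?_
      mul := ?_
      star := ?_
      cent := hcent
      Dd_le := ?_
      coord := fun x hx j => coord' hG hK x hx j
      kap_id := fun a ha => kap_id' hG hK ha
      kap_mem := hkm
      kap_right := hright
      kap_left := hleft
      kap_zero := ?_
      kap_bound := ?_ }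
  · have e : (RR G n d : Set A) = {a | kap G n a = a} ∩
        ⋂ i, {a | G.E (star (n i) * a) ∈ Dd G d} := by
      ext a
      constructor
      · intro ha
        have ha' : a ∈ RR G n d := ha
        refine ⟨kap_id' hG hK ha', Set.mem_iInter.2 fun i => ?_⟩
        obtain ⟨x, hx, rfl⟩ := ha'
        show G.E _ ∈ Dd G d
        rw [coord' hG hK x hx i]
        exact hx i
      · rintro ⟨h1, h2⟩
        refine ⟨fun i => G.E (star (n i) * a), fun i => Set.mem_iInter.1 h2 i, ?_⟩
        rw [← kap_apply]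
        exact h1.symm
    rw [e]
    refine (isClosed_eq (kap_cont G n) continuous_id).inter (isClosed_iInter fun i => ?_)
    exact (Submodule.isClosed_topologicalClosure _).preimage
      ((E_cont G).comp (continuous_const_mul (star (n i))))
  · rintro a ⟨x, hx, rfl⟩ b ⟨y, hy, rfl⟩
    rw [Finset.sum_mul]
    refine Submodule.sum_mem _ fun i _ => ?_
    rw [Finset.mul_sum]
    refine Submodule.sum_mem _ fun j _ => ?_
    have hc : x i * y j ∈ Dd G d := Dd_mulR (hx i) (Dd_D hdD (hy j))
    have h1 : n i * x i * (n j * y j) = (n i * n j) * (x i * y j) := by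
      calc n i * x i * (n j * y j) = n i * (x i * n j) * y j := by noncomm_ring
        _ = n i * (n j * x i) * y j := by rw [hcm j _ (hx i)]
        _ = (n i * n j) * (x i * y j) := by noncomm_ring
    rw [h1, hX _ (G.N_mul _ (hN i) _ (hN j)) _ hc (fun φ hφ _ => by
      have h2 := Dd_pt φ hdD hc hφ
      exact iso_mul' φ (hK.iso i φ h2) (hK.iso j φ h2))]
    exact hkm _ _ hc
  · rintro a ⟨x, hx, rfl⟩
    rw [star_sum]
    refine Submodule.sum_mem _ fun i _ => ?_
    have hc := hsd _ (hx i)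
    rw [star_mul, hcs i _ hc, hX _ (G.N_star _ (hN i)) _ hc (fun φ hφ _ => by
      have h2 := Dd_pt φ hdD hc hφ
      exact iso_star' φ (hK.iso i φ h2))]
    exact hkm _ _ hc
  · intro x hx
    have h1 : u * x = x := by
      refine Dd_ind (fun y => u * y = y) ?_ (fun z _ => ?_) hx
      · exact isClosed_eq (continuous_const_mul _) continuous_id
      · show u * (d * z) = d * z
        rw [← mul_assoc, hK.u_d]
    have h2 := hX u (G.D_sub _ hK.u_mem) x hx (fun φ hφ _ => by
      have h2 := Dd_pt φ hdD hx hφ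
      refine iso_D' φ hK.u_mem fun h3 => h2 ?_
      rw [← hK.u_d, d_mulL φ hK.u_mem, h3, zero_mul])
    rw [← h1, h2]
    exact hkm _ _ hx
  · intro l hl c hc h
    rw [kap_apply, Finset.sum_mul]
    refine Finset.sum_eq_zero fun i _ => ?_
    have h1 : G.E (star (n i) * l) * c = 0 := by
      refine d_zero hG (G.D_mul _ (G.E_mem _) _ (Dd_D hdD hc)) fun φ => ?_
      rw [d_mulL φ (G.E_mem _)]
      by_cases h2 : φ c = 0
      · rw [h2, mul_zero]
      · by_cases h3 : φ (G.E (star (n i) * l)) = 0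
        · rw [h3, zero_mul]
        · exact absurd (eps_left' φ hG (hK.iso i φ (Dd_pt φ hdD hc h2)) hl h3) (h φ h2)
    rw [mul_assoc, h1, mul_zero]
  · refine ⟨∑ i, ‖n i‖ * ‖n i‖, fun a => ?_⟩
    rw [kap_apply, Finset.sum_mul]
    refine (norm_sum_le _ _).trans (Finset.sum_le_sum fun i _ => ?_)
    calc ‖n i * G.E (star (n i) * a)‖ ≤ ‖n i‖ * ‖G.E (star (n i) * a)‖ := norm_mul_le _ _
      _ ≤ ‖n i‖ * ‖star (n i) * a‖ := by gcongr; exact G.E_bound _
      _ ≤ ‖n i‖ * (‖star (n i)‖ * ‖a‖) := by gcongr; exact norm_mul_le _ _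
      _ = ‖n i‖ * ‖n i‖ * ‖a‖ := by rw [norm_star]; ring

end Pool.Agent.Helper62.Ucg
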